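import Pool.Agent.Helper77.Pred.Tail

/-!
Shrinkage priors and alpha-divergence predictive densities with unknown variance: the generalized
Bayes predictive density for the shrinkage prior does not dominate the best invariant one.
The counterexample design is `k = 4`, `m = n = 5`, `N = 1`, `X̃ = [I₄; 0]`, with `α = 1/3`.
-/

namespace Pool.Agent.Results.MP_dfd69c_pr.NonDomination

open Pool.Agent.Helper77.Pred

/-- There is a design satisfying (AS1) and an `α ∈ (-1, 1)` such that for every exponent `a ≥ 1`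
(`a = 2` is the prior as printed in the problem, `a = 1` is its variant with the exponent of the
right invariant prior) there is a parameter `(β, v)` at which the generalized Bayes predictive
density under `D_α` for the shrinkage prior `{β' X̃' X̃ β}^(1-k/2) v^(-a)` has strictly larger
risk than the one for the right invariant prior `v^(-1)`. -/
theorem result :
    ∃ (N m k : ℕ) (Xt : Matrix (Fin m) (Fin k) ℝ), AS1 N Xt ∧
      ∃ α : ℝ, -1 < α ∧ α < 1 ∧ ∀ a : ℝ, 1 ≤ a →
        ∃ (β : Fin k → ℝ) (v : ℝ), 0 < v ∧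
          riskAlpha α (stack N Xt) Xt (bayesDensity α (stack N Xt) Xt priorI) β v <
            riskAlpha α (stack N Xt) Xt (bayesDensity α (stack N Xt) Xt (priorS a Xt)) β v := by
  refine ⟨1, 5, 4, Xt54, ⟨by norm_num, by norm_num, by norm_num, by norm_num, rank54⟩,
    1 / 3, by norm_num, by norm_num, ?_⟩
  intro a ha
  have hfar : ∃ ρ₀ : ℝ, 0 < ρ₀ ∧ ∃ c₀ : ℝ, 0 < c₀ ∧
      ∀ μ : V4, ρ₀ ≤ nsq μ → Psi (kapS (a + 1 / 3)) μ ≤ ENNReal.ofReal (PsiI - c₀ / nsq μ) := by
    rcases ha.lt_or_eq with h | h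
    · exact psi_far (by linarith)
    · rw [← h]
      have : (1 : ℝ) + 1 / 3 = 4 / 3 := by norm_num
      rw [this]
      exact psi_near
  obtain ⟨ρ₀, hρ, c₀, hc, hΨ⟩ := hfar
  obtain ⟨β, hβ⟩ := tail (measurable_kapS (a + 1 / 3)) (risk_S ha 0).1 hρ hc hΨ
  refine ⟨β, 1, one_pos, ?_⟩
  rw [(risk_S ha β).2, (risk_I β).2]
  have h1 : FF (kapS (a + 1 / 3)) β ≠ ⊤ := ne_top_of_lt hβ
  have h2 : FF kapI β ≠ ⊤ := ne_top_of_le_ne_top ENNReal.one_ne_top (risk_I β).1
  have h3 := (ENNReal.toReal_lt_toReal h1 h2).2 hβ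
  linarith

end Pool.Agent.Results.MP_dfd69c_pr.NonDomination
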